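import Pool.Agent.N71.RP.Stm

/-!
# Project RP (helper71), leaf ZET (helper413)
-/

set_option autoImplicit false

namespace Pool.Agent.N413.RPZET

/-- tangents of `x ^ c` -/
theorem tang {c x y : ℝ} (hc0 : 0 ≤ c) (hc1 : c ≤ 1) (hx : 0 < x) (hy : 0 < y) :
    y ^ c ≤ x ^ c + c * x ^ (c - 1) * (y - x) := by
  have h1 := rpow_one_add_le_one_add_mul_self (s := y / x - 1) (p := c)
    (by have := div_pos hy hx; linarith) hc0 hc1
  have h2 : 1 + (y / x - 1) = y / x := by ring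
  rw [h2, Real.div_rpow hy.le hx.le, div_le_iff₀ (Real.rpow_pos_of_pos hx c)] at h1
  refine h1.trans (le_of_eq ?_)
  rw [Real.rpow_sub_one hx.ne']
  field_simp

/-- the sequence -/
noncomputable def ak (b : ℝ) (k : ℕ) : ℝ :=
  ∑ j ∈ Finset.Icc 1 k, (j : ℝ) ^ (-b) - (k : ℝ) ^ (1 - b) / (1 - b)

theorem step {b : ℝ} (h0 : 0 ≤ b) (h1 : b < 1) {x y : ℝ} (hx : 0 < x) (hy : 0 < y) :
    (y - x) * y ^ (-b) ≤ y ^ (1 - b) / (1 - b) - x ^ (1 - b) / (1 - b) ∧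
    y ^ (1 - b) / (1 - b) - x ^ (1 - b) / (1 - b) ≤ (y - x) * x ^ (-b) := by
  have hc : 0 < 1 - b := by linarith
  have e1 := tang (c := 1 - b) hc.le (by linarith) hx hy
  have e2 := tang (c := 1 - b) hc.le (by linarith) hy hx
  have e3 : 1 - b - 1 = -b := by ring
  rw [e3] at e1 e2
  rw [← sub_div]
  constructor
  · rw [le_div_iff₀ hc]
    linarith
  · rw [div_le_iff₀ hc]
    linarith

theorem ak_succ {b : ℝ} (h0 : 0 ≤ b) (h1 : b < 1) (k : ℕ) (hk : 1 ≤ k) :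
    ak b (k + 1) ≤ ak b k ∧ ak b k - (k : ℝ) ^ (-b) ≤ ak b (k + 1) - ((k + 1 : ℕ) : ℝ) ^ (-b) := by
  have hk0 : (0 : ℝ) < k := by exact_mod_cast hk
  have hk1 : (0 : ℝ) < ((k + 1 : ℕ) : ℝ) := by positivity
  obtain ⟨e1, e2⟩ := step h0 h1 hk0 hk1
  have e3 : ((k + 1 : ℕ) : ℝ) - k = 1 := by push_cast; ring
  rw [e3, one_mul] at e1 e2
  unfold ak
  rw [Finset.sum_Icc_succ_top (by omega)]
  constructor <;> linarith

theorem ak_anti {b : ℝ} (h0 : 0 ≤ b) (h1 : b < 1) (k j : ℕ) (hk : 1 ≤ k) (hkj : k ≤ j) :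
    ak b j ≤ ak b k ∧ ak b k - (k : ℝ) ^ (-b) ≤ ak b j - (j : ℝ) ^ (-b) := by
  induction j, hkj using Nat.le_induction with
  | base => exact ⟨le_rfl, le_rfl⟩
  | succ j hj ih =>
    have h2 := ak_succ h0 h1 j (hk.trans hj)
    exact ⟨h2.1.trans ih.1, ih.2.trans h2.2⟩

theorem exists_lim {b : ℝ} (h0 : 0 ≤ b) (h1 : b < 1) :
    ∃ z : ℝ, ∀ k : ℕ, 1 ≤ k → z ≤ ak b k ∧ ak b k - (k : ℝ) ^ (-b) ≤ z := by
  have hb : ∀ k j : ℕ, 1 ≤ k → 1 ≤ j → ak b k - (k : ℝ) ^ (-b) ≤ ak b j := by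
    intro k j hk hj
    have hpos : ∀ i : ℕ, (0 : ℝ) ≤ (i : ℝ) ^ (-b) := fun i => Real.rpow_nonneg (Nat.cast_nonneg i) _
    rcases le_total k j with h | h
    · have := (ak_anti h0 h1 k j hk h).2
      have := hpos j
      linarith
    · have := (ak_anti h0 h1 j k hj h).1
      have := hpos k
      linarith
  let A : Set ℝ := {x | ∃ k : ℕ, 1 ≤ k ∧ x = ak b k}
  have hne : A.Nonempty := ⟨ak b 1, 1, le_rfl, rfl⟩
  have hbd : BddBelow A := by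
    refine ⟨ak b 1 - ((1 : ℕ) : ℝ) ^ (-b), ?_⟩
    rintro x ⟨j, hj, rfl⟩
    exact hb 1 j le_rfl hj
  refine ⟨sInf A, fun k hk => ⟨csInf_le hbd ⟨k, hk, rfl⟩, le_csInf hne ?_⟩⟩
  rintro x ⟨j, hj, rfl⟩
  exact hb k j hk hj

theorem t_ZET : Pool.Agent.N71.RP.E_ZET := by
  intro b hb hb1
  have h0 : 0 ≤ b := by linarith
  obtain ⟨z, hz⟩ := exists_lim h0 hb1
  have hc : 0 < 1 - b := by linarith
  refine ⟨z, ?_, ?_⟩
  · have h1 := (hz 1 le_rfl).1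
    have h2 : ak b 1 = 1 - 1 / (1 - b) := by
      unfold ak
      simp
    rw [h2] at h1
    have h3 : 1 ≤ 1 / (1 - b) := by
      rw [le_div_iff₀ hc]
      linarith
    linarith
  · intro t ht
    set k : ℕ := ⌊t⌋₊ with hk
    have hk1 : 1 ≤ k := Nat.le_floor (by simpa using ht)
    have hkt : (k : ℝ) ≤ t := Nat.floor_le (by linarith)
    have htk : t < k + 1 := Nat.lt_floor_add_one t
    have hk0 : (0 : ℝ) < k := by exact_mod_cast hk1
    have hk1' : (1 : ℝ) ≤ k := by exact_mod_cast hk1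
    have ht0 : 0 < t := by linarith
    obtain ⟨e1, e2⟩ := step h0 hb1 hk0 ht0
    have e3 : (0 : ℝ) ≤ (t - k) * t ^ (-b) :=
      mul_nonneg (by linarith) (Real.rpow_nonneg ht0.le _)
    have hkp : (0 : ℝ) < (k : ℝ) ^ (-b) := Real.rpow_pos_of_pos hk0 _
    have e4 : (t - k) * (k : ℝ) ^ (-b) ≤ (k : ℝ) ^ (-b) := by nlinarith
    have e5 : (k : ℝ) ^ (-b) ≤ 2 * t ^ (-b) := by
      have h5 : (k : ℝ) ^ (-b) ≤ (t / 2) ^ (-b) := by
        refine Real.rpow_le_rpow_of_nonpos (by linarith) (by linarith) (by linarith)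
      refine h5.trans ?_
      rw [Real.div_rpow ht0.le (by norm_num), div_eq_mul_inv, mul_comm]
      refine mul_le_mul_of_nonneg_right ?_ (Real.rpow_nonneg ht0.le _)
      rw [Real.rpow_neg (by norm_num), inv_inv]
      calc (2 : ℝ) ^ b ≤ 2 ^ (1 : ℝ) := Real.rpow_le_rpow_of_exponent_le (by norm_num) hb1.le
        _ = 2 := Real.rpow_one 2
    obtain ⟨h6, h7⟩ := hz k hk1
    have h8 : ∑ j ∈ Finset.Icc 1 k, (j : ℝ) ^ (-b) - t ^ (1 - b) / (1 - b) - z =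
        (ak b k - z) - (t ^ (1 - b) / (1 - b) - (k : ℝ) ^ (1 - b) / (1 - b)) := by
      unfold ak
      ring
    rw [h8, abs_le]
    constructor <;> linarith

end Pool.Agent.N413.RPZET
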